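import Pool.Agent.Lib.MP_a7b2aa_an.SB30.Stmts

/-!
Module LK: the trace inequality.
-/

set_option autoImplicit false

open Finset Matrix

namespace Pool.Agent.SB30

namespace LK33

variable {κ : Type} [Fintype κ] [DecidableEq κ]

theorem spec (S : Matrix κ κ ℝ) (hS : S.IsSymm) : ∃ (U : Matrix κ κ ℝ) (d : κ → ℝ),
    U * Uᵀ = 1 ∧ Uᵀ * U = 1 ∧ S = U * diagonal d * Uᵀ := by
  have hH : S.IsHermitian := by
    unfold IsHermitian
    rw [conjTranspose_eq_transpose_of_trivial]
    exact hS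
  have h := hH.spectral_theorem
  rw [Unitary.conjStarAlgAut_apply] at h
  refine ⟨hH.eigenvectorUnitary, hH.eigenvalues, ?_, ?_, ?_⟩
  · have := Unitary.coe_mul_star_self hH.eigenvectorUnitary
    rwa [Unitary.coe_star, star_eq_conjTranspose, conjTranspose_eq_transpose_of_trivial] at this
  · have := Unitary.coe_star_mul_self hH.eigenvectorUnitary
    rwa [star_eq_conjTranspose, conjTranspose_eq_transpose_of_trivial] at this
  · rw [star_eq_conjTranspose, conjTranspose_eq_transpose_of_trivial] at h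
    simpa using h

theorem spec_pow (S U : Matrix κ κ ℝ) (d : κ → ℝ) (h2 : Uᵀ * U = 1) (h1 : U * Uᵀ = 1)
    (hS : S = U * diagonal d * Uᵀ) : ∀ n : ℕ, S ^ n = U * diagonal (fun i => d i ^ n) * Uᵀ := by
  intro n
  induction n with
  | zero => simp [h1]
  | succ n ih =>
    rw [pow_succ, ih, hS]
    calc U * diagonal (fun i => d i ^ n) * Uᵀ * (U * diagonal d * Uᵀ)
        = U * diagonal (fun i => d i ^ n) * (Uᵀ * U) * diagonal d * Uᵀ := by
          simp only [Matrix.mul_assoc]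
      _ = _ := by
          rw [h2, Matrix.mul_one, Matrix.mul_assoc U, diagonal_mul_diagonal]
          simp only [pow_succ]

theorem trace_diag (U V : Matrix κ κ ℝ) (d e : κ → ℝ) :
    (U * diagonal d * Uᵀ * (V * diagonal e * Vᵀ)).trace
      = ∑ i, ∑ j, ((Uᵀ * V) i j) ^ 2 * (d i * e j) := by
  have h : (U * diagonal d * Uᵀ * (V * diagonal e * Vᵀ)).trace
      = (diagonal d * (Uᵀ * V) * (diagonal e * (Uᵀ * V)ᵀ)).trace := by
    rw [transpose_mul, transpose_transpose]
    calc (U * diagonal d * Uᵀ * (V * diagonal e * Vᵀ)).trace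
        = (U * (diagonal d * Uᵀ * V * diagonal e * Vᵀ)).trace := by
          simp only [Matrix.mul_assoc]
      _ = (diagonal d * Uᵀ * V * diagonal e * Vᵀ * U).trace := trace_mul_comm _ _
      _ = _ := by simp only [Matrix.mul_assoc]
  rw [h, trace]
  refine sum_congr rfl fun i _ => ?_
  rw [diag_apply, mul_apply]
  refine sum_congr rfl fun j _ => ?_
  rw [diagonal_mul, diagonal_mul, transpose_apply]
  ring

/-- The remainder polynomial. -/
def F (x y : ℝ) : ℕ → ℝ
  | 0 => 1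
  | N + 1 => x * F x y N + (N + 2) * y ^ (N + 1)

theorem F_id (x y : ℝ) : ∀ N : ℕ,
    x ^ (N + 2) - y ^ (N + 2) - (N + 2) * y ^ (N + 1) * (x - y) = (x - y) ^ 2 * F x y N := by
  intro N
  induction N with
  | zero => simp [F]; ring
  | succ N ih =>
    rw [F]
    have : (x - y) ^ 2 * (x * F x y N + (N + 2) * y ^ (N + 1))
        = x * ((x - y) ^ 2 * F x y N) + (N + 2) * y ^ (N + 1) * (x - y) ^ 2 := by ring
    rw [this, ← ih]
    push_cast
    ring

theorem F_le (x y : ℝ) : ∀ N : ℕ, |F x y N| ≤ (N + 1) * (N + 2) / 2 * (max |x| |y|) ^ N := by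
  intro N
  induction N with
  | zero => simp [F]
  | succ N ih =>
    rw [F]
    have hm : 0 ≤ max |x| |y| := le_max_of_le_left (abs_nonneg x)
    calc |x * F x y N + (N + 2) * y ^ (N + 1)|
        ≤ |x| * |F x y N| + (N + 2) * |y| ^ (N + 1) := by
          refine (abs_add_le _ _).trans ?_
          rw [abs_mul, abs_mul, abs_pow, abs_of_nonneg (by positivity : (0:ℝ) ≤ (N:ℝ) + 2)]
      _ ≤ max |x| |y| * ((N + 1) * (N + 2) / 2 * (max |x| |y|) ^ N)
          + (N + 2) * (max |x| |y|) ^ (N + 1) := by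
          gcongr
          · exact le_max_left _ _
          · exact le_max_right _ _
      _ = _ := by push_cast; ring

theorem scalar (x y : ℝ) (r : ℕ) :
    x ^ (2 * (r + 1)) - y ^ (2 * (r + 1)) - 2 * (r + 1) * y ^ (2 * r + 1) * (x - y)
      ≤ (r + 1) * (2 * r + 1) * ((x ^ (2 * r) + y ^ (2 * r)) * (x - y) ^ 2) := by
  have h1 := F_id x y (2 * r)
  have h2 := F_le x y (2 * r)
  have h3 : (max |x| |y|) ^ (2 * r) ≤ x ^ (2 * r) + y ^ (2 * r) := by
    have hx : |x| ^ (2 * r) = x ^ (2 * r) := by rw [pow_mul, sq_abs, ← pow_mul]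
    have hy : |y| ^ (2 * r) = y ^ (2 * r) := by rw [pow_mul, sq_abs, ← pow_mul]
    have hx0 : 0 ≤ x ^ (2 * r) := by rw [pow_mul]; positivity
    have hy0 : 0 ≤ y ^ (2 * r) := by rw [pow_mul]; positivity
    rcases le_total |x| |y| with h | h
    · rw [max_eq_right h, hy]; linarith
    · rw [max_eq_left h, hx]; linarith
  have h4 : F x y (2 * r) ≤ (r + 1) * (2 * r + 1) * (x ^ (2 * r) + y ^ (2 * r)) := by
    refine (le_abs_self _).trans (h2.trans ?_)
    have : ((((2 * r : ℕ) : ℝ)) + 1) * ((((2 * r : ℕ) : ℝ)) + 2) / 2 = (r + 1) * (2 * r + 1) := by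
      push_cast; ring
    rw [this]
    exact mul_le_mul_of_nonneg_left h3 (by positivity)
  have h5 : x ^ (2 * (r + 1)) - y ^ (2 * (r + 1)) - 2 * (r + 1) * y ^ (2 * r + 1) * (x - y)
      = (x - y) ^ 2 * F x y (2 * r) := by
    rw [← h1, show 2 * (r + 1) = 2 * r + 2 by ring]
    push_cast
    ring
  rw [h5]
  nlinarith [mul_le_mul_of_nonneg_left h4 (sq_nonneg (x - y))]

omit [DecidableEq κ] in
theorem trace_sq (M : Matrix κ κ ℝ) : (M * Mᵀ).trace = ∑ j, ∑ i, M i j ^ 2 := by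
  rw [trace, sum_comm]
  refine sum_congr rfl fun i _ => ?_
  rw [diag_apply, mul_apply]
  refine sum_congr rfl fun j _ => ?_
  rw [transpose_apply]
  ring

theorem tr_B2 (S B : Matrix κ κ ℝ) (hS : S.IsSymm) (hB : B.IsSymm) (b : ℝ) (r : ℕ)
    (hb : ∀ w : κ → ℝ, ∑ i, (B.mulVec w i) ^ 2 ≤ b * ∑ i, w i ^ 2) :
    (S ^ (2 * r) * (B * B)).trace ≤ b * (S ^ (2 * r)).trace := by
  have hr : (S ^ r)ᵀ = S ^ r := by
    rw [transpose_pow, hS.eq]
  have h1 : (S ^ (2 * r) * (B * B)).trace = ((B * S ^ r) * (B * S ^ r)ᵀ).trace := by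
    rw [transpose_mul, hr, hB.eq, two_mul, pow_add]
    calc (S ^ r * S ^ r * (B * B)).trace = ((S ^ r * S ^ r * B) * B).trace := by
          simp only [Matrix.mul_assoc]
      _ = (B * (S ^ r * S ^ r * B)).trace := trace_mul_comm _ _
      _ = _ := by simp only [Matrix.mul_assoc]
  have h2 : (S ^ (2 * r)).trace = (S ^ r * (S ^ r)ᵀ).trace := by
    rw [hr, two_mul, pow_add]
  rw [h1, h2, trace_sq, trace_sq, mul_sum]
  refine sum_le_sum fun j _ => ?_
  have h := hb (fun i => (S ^ r) i j)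
  refine le_trans (le_of_eq ?_) h
  refine sum_congr rfl fun i _ => ?_
  rw [mul_apply]
  rfl

end LK33

open LK33 in
/-- Module LK. -/
theorem lk33 : LKStmt := by
  intro κ _ _ A B r b hA hB hb
  set X := A + B with hX
  have hXs : X.IsSymm := hA.add hB
  obtain ⟨U, lam, hU1, hU2, hU⟩ := spec X hXs
  obtain ⟨V, mu, hV1, hV2, hV⟩ := spec A hA
  set w : κ → κ → ℝ := fun i j => ((Uᵀ * V) i j) ^ 2 with hw
  have ht : ∀ a c : ℕ, (X ^ a * A ^ c).trace = ∑ i, ∑ j, w i j * (lam i ^ a * mu j ^ c) := by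
    intro a c
    rw [spec_pow X U lam hU2 hU1 hU a, spec_pow A V mu hV2 hV1 hV c, trace_diag]
  have hmain : ∑ i, ∑ j, w i j * (lam i ^ (2 * (r + 1)) - mu j ^ (2 * (r + 1))
        - 2 * (r + 1) * mu j ^ (2 * r + 1) * (lam i - mu j))
      ≤ ∑ i, ∑ j, w i j * ((r + 1) * (2 * r + 1) *
        ((lam i ^ (2 * r) + mu j ^ (2 * r)) * (lam i - mu j) ^ 2)) := by
    refine sum_le_sum fun i _ => sum_le_sum fun j _ => ?_
    exact mul_le_mul_of_nonneg_left (scalar _ _ r) (sq_nonneg _)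
  have hBX : B = X - A := by rw [hX]; abel
  have e1 : ∑ i, ∑ j, w i j * (lam i ^ (2 * (r + 1)) - mu j ^ (2 * (r + 1))
        - 2 * (r + 1) * mu j ^ (2 * r + 1) * (lam i - mu j))
      = (X ^ (2 * (r + 1))).trace - (A ^ (2 * (r + 1))).trace
        - 2 * (r + 1) * (A ^ (2 * r + 1) * B).trace := by
    have a1 : (X ^ (2 * (r + 1))).trace = ∑ i, ∑ j, w i j * (lam i ^ (2 * (r + 1)) * mu j ^ 0) := by
      rw [← ht]; simp
    have a2 : (A ^ (2 * (r + 1))).trace = ∑ i, ∑ j, w i j * (lam i ^ 0 * mu j ^ (2 * (r + 1))) := by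
      rw [← ht]; simp
    have a3 : (A ^ (2 * r + 1) * B).trace
        = ∑ i, ∑ j, w i j * (lam i ^ 1 * mu j ^ (2 * r + 1))
          - ∑ i, ∑ j, w i j * (lam i ^ 0 * mu j ^ (2 * (r + 1))) := by
      rw [← ht, ← ht, hBX, Matrix.mul_sub, trace_sub, trace_mul_comm, pow_zero, one_mul,
        show 2 * (r + 1) = 2 * r + 1 + 1 by ring, pow_succ A (2 * r + 1), pow_one]
    rw [a3, a1, a2, ← sum_sub_distrib, ← sum_sub_distrib, mul_sum, ← sum_sub_distrib]
    refine sum_congr rfl fun i _ => ?_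
    rw [← sum_sub_distrib, ← sum_sub_distrib, mul_sum, ← sum_sub_distrib]
    refine sum_congr rfl fun j _ => ?_
    ring
  have e2 : ∑ i, ∑ j, w i j * ((r + 1) * (2 * r + 1) *
        ((lam i ^ (2 * r) + mu j ^ (2 * r)) * (lam i - mu j) ^ 2))
      = (r + 1) * (2 * r + 1) * ((X ^ (2 * r) * (B * B)).trace + (A ^ (2 * r) * (B * B)).trace) := by
    have b0 : B * B = X * X - X * A - A * X + A * A := by
      rw [hBX]; noncomm_ring
    have b1 : (X ^ (2 * r) * (B * B)).trace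
        = ∑ i, ∑ j, w i j * (lam i ^ (2 * r + 2) * mu j ^ 0)
          - 2 * ∑ i, ∑ j, w i j * (lam i ^ (2 * r + 1) * mu j ^ 1)
          + ∑ i, ∑ j, w i j * (lam i ^ (2 * r) * mu j ^ 2) := by
      rw [← ht, ← ht, ← ht, b0, Matrix.mul_add, Matrix.mul_sub, Matrix.mul_sub, trace_add,
        trace_sub, trace_sub]
      have c1 : (X ^ (2 * r) * (A * X)).trace = (X ^ (2 * r) * (X * A)).trace := by
        rw [← Matrix.mul_assoc, trace_mul_comm, ← Matrix.mul_assoc, ← Matrix.mul_assoc,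
          ← pow_succ, ← pow_succ']
      rw [c1, pow_zero, mul_one, pow_one, pow_two A, pow_succ X (2 * r + 1), pow_succ X (2 * r)]
      simp only [Matrix.mul_assoc]
      ring
    have b2 : (A ^ (2 * r) * (B * B)).trace
        = ∑ i, ∑ j, w i j * (lam i ^ 2 * mu j ^ (2 * r))
          - 2 * ∑ i, ∑ j, w i j * (lam i ^ 1 * mu j ^ (2 * r + 1))
          + ∑ i, ∑ j, w i j * (lam i ^ 0 * mu j ^ (2 * r + 2)) := by
      rw [← ht, ← ht, ← ht, b0, Matrix.mul_add, Matrix.mul_sub, Matrix.mul_sub, trace_add,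
        trace_sub, trace_sub]
      have c0 : (A ^ (2 * r) * (X * X)).trace = (X * X * A ^ (2 * r)).trace := trace_mul_comm _ _
      have c1 : (A ^ (2 * r) * (X * A)).trace = (X * A ^ (2 * r + 1)).trace := by
        rw [trace_mul_comm, Matrix.mul_assoc, ← pow_succ']
      have c2 : (A ^ (2 * r) * (A * X)).trace = (X * A ^ (2 * r + 1)).trace := by
        rw [← Matrix.mul_assoc, trace_mul_comm, ← pow_succ]
      rw [c0, c1, c2, pow_zero, one_mul, pow_one, pow_two X, pow_succ A (2 * r + 1),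
        pow_succ A (2 * r)]
      simp only [Matrix.mul_assoc]
      ring
    rw [b1, b2]
    simp only [mul_sum, ← sum_add_distrib, ← sum_sub_distrib, mul_add, mul_sub]
    refine sum_congr rfl fun i _ => ?_
    refine sum_congr rfl fun j _ => ?_
    ring
  rw [e1, e2] at hmain
  have t1 := tr_B2 X B hXs hB b r hb
  have t2 := tr_B2 A B hA hB b r hb
  have : ((r : ℝ) + 1) * (2 * r + 1) * ((X ^ (2 * r) * (B * B)).trace + (A ^ (2 * r) * (B * B)).trace)
      ≤ ((r : ℝ) + 1) * (2 * r + 1) * (b * (X ^ (2 * r)).trace + b * (A ^ (2 * r)).trace) :=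
    mul_le_mul_of_nonneg_left (add_le_add t1 t2) (by positivity)
  nlinarith [this]

end Pool.Agent.SB30
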