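import Pool.Agent.Lib.MP_a7b2aa_an.SB30.Stmts

/-!
MP_a7b2aa_an, SB30, module MOM: matrix moments from the trace inequality.
-/

set_option autoImplicit false

open Finset

namespace Pool.Agent.SB30

namespace M32

lemma Ex_mono {Ω : Type*} [Fintype Ω] {ρ : Ω → ℝ} (hρ : ∀ ω, 0 ≤ ρ ω) {f g : Ω → ℝ}
    (h : ∀ ω, f ω ≤ g ω) : Ex ρ f ≤ Ex ρ g :=
  Finset.sum_le_sum (fun ω _ => mul_le_mul_of_nonneg_left (h ω) (hρ ω))

lemma Ex_add {Ω : Type*} [Fintype Ω] (ρ f g : Ω → ℝ) :
    Ex ρ (fun ω => f ω + g ω) = Ex ρ f + Ex ρ g := by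
  simp [Ex, mul_add, Finset.sum_add_distrib]

lemma Ex_smul {Ω : Type*} [Fintype Ω] (ρ f : Ω → ℝ) (c : ℝ) :
    Ex ρ (fun ω => c * f ω) = c * Ex ρ f := by
  simp only [Ex, Finset.mul_sum]
  exact Finset.sum_congr rfl (fun ω _ => by ring)

end M32

open M32 in
/-- Module MOM. -/
theorem mom (hLK : LKStmt) : MomStmt := by
  intro r
  induction r with
  | zero =>
    refine ⟨1, one_pos, ?_⟩
    intro Ω _ κ _ _ ρ R D M b L hρ hρs _ _ _ _ _ _ _ _ P hP
    simp [Ex, ← Finset.sum_mul, hρs]
  | succ r ih =>
    obtain ⟨A, hA, ih⟩ := ih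
    refine ⟨8 * (r + 1) * (2 * r + 1) * A, by positivity, ?_⟩
    intro Ω _ κ _ _ ρ R D M b L hρ hρs hR hD hD2 hM hE hsym hb hMb P hP
    have hRle : ∀ p q, p ≤ q → ∀ x y, R q x y → R p x y := by
      intro p q hpq
      induction hpq with
      | refl => exact fun x y h => h
      | step _ ih => exact fun x y h => ih x y (hR _ x y h)
    induction P using Finset.induction_on_max with
    | empty => simp [Ex]
    | insert p P' hp ihP =>
      have hpL : p < L := Finset.mem_range.mp (hP (Finset.mem_insert_self _ _))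
      have hP' : P' ⊆ range L := (Finset.subset_insert _ _).trans hP
      have hpn : p ∉ P' := fun h => lt_irrefl _ (hp p h)
      have ihP := ihP hP'
      have ih1 := ih Ω κ ρ R D M b L hρ hρs hR hD hD2 hM hE hsym hb hMb _ hP
      have ih2 := ih Ω κ ρ R D M b L hρ hρs hR hD hD2 hM hE hsym hb hMb _ hP'
      set S' : Ω → Matrix κ κ ℝ := fun ω => ∑ p ∈ P', D p ω • M p ω with hS'
      set S : Ω → Matrix κ κ ℝ := fun ω => ∑ p ∈ insert p P', D p ω • M p ω with hS
      have hSS : ∀ ω, S ω = S' ω + D p ω • M p ω := by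
        intro ω
        simp only [hS, hS']
        rw [Finset.sum_insert hpn, add_comm]
      have hS'sym : ∀ ω, (S' ω).IsSymm := by
        intro ω
        simp only [hS']
        unfold Matrix.IsSymm
        rw [Matrix.transpose_sum]
        apply Finset.sum_congr rfl
        intro q _
        rw [Matrix.transpose_smul, (hsym q ω).eq]
      have hS'meas : Meas (R p) S' := by
        intro x y hxy
        simp only [hS']
        apply Finset.sum_congr rfl
        intro q hq
        have hqp := hp q hq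
        rw [hD q x y (hRle (q + 1) p hqp x y hxy), hM q x y (hRle q p hqp.le x y hxy)]
      have hpt : ∀ ω, (S ω ^ (2 * (r + 1))).trace ≤ (S' ω ^ (2 * (r + 1))).trace
          + (2 * (r + 1)) * (D p ω * (S' ω ^ (2 * r + 1) * M p ω).trace)
          + ((r + 1) * (2 * r + 1) * (4 * b)) * ((S ω ^ (2 * r)).trace + (S' ω ^ (2 * r)).trace) := by
        intro ω
        have h1 := hLK κ (S' ω) (D p ω • M p ω) r (4 * b) (hS'sym ω)
          (by unfold Matrix.IsSymm; rw [Matrix.transpose_smul, (hsym p ω).eq])
          (by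
            intro w
            have h2 := hMb p hpL ω w
            have h3 : (D p ω) ^ 2 ≤ 4 := by
              have := hD2 p ω
              rw [abs_le] at this
              nlinarith
            calc ∑ i, ((D p ω • M p ω).mulVec w i) ^ 2 =
                (D p ω) ^ 2 * ∑ i, ((M p ω).mulVec w i) ^ 2 := by
                  rw [Finset.mul_sum]
                  apply Finset.sum_congr rfl
                  intro i _
                  rw [Matrix.smul_mulVec, Pi.smul_apply, smul_eq_mul, mul_pow]
              _ ≤ 4 * (b * ∑ i, w i ^ 2) := by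
                  apply mul_le_mul h3 h2 (Finset.sum_nonneg (fun i _ => sq_nonneg _)) (by norm_num)
              _ = 4 * b * ∑ i, w i ^ 2 := by ring)
        rw [← hSS] at h1
        refine h1.trans (le_of_eq ?_)
        rw [Matrix.mul_smul, Matrix.trace_smul, smul_eq_mul]
      have hX : Ex ρ (fun ω => D p ω * (S' ω ^ (2 * r + 1) * M p ω).trace) = 0 := by
        apply hE p hpL
        intro x y hxy
        change (S' x ^ (2 * r + 1) * M p x).trace = (S' y ^ (2 * r + 1) * M p y).trace
        rw [hS'meas x y hxy, hM p x y hxy]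
      have hmain : Ex ρ (fun ω => (S ω ^ (2 * (r + 1))).trace) ≤
          Ex ρ (fun ω => (S' ω ^ (2 * (r + 1))).trace) +
          ((r + 1) * (2 * r + 1) * (4 * b)) *
            (Ex ρ (fun ω => (S ω ^ (2 * r)).trace) + Ex ρ (fun ω => (S' ω ^ (2 * r)).trace)) := by
        refine (Ex_mono hρ hpt).trans (le_of_eq ?_)
        rw [Ex_add, Ex_add, Ex_smul, Ex_smul, Ex_add, hX]
        ring
      have hcard : (((insert p P').card : ℕ) : ℝ) = (P'.card : ℝ) + 1 := by
        rw [Finset.card_insert_of_notMem hpn]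
        push_cast
        ring
      rw [hcard] at ih1 ⊢
      set N : ℝ := (P'.card : ℝ) with hN
      have hN0 : 0 ≤ N := Nat.cast_nonneg _
      set n : ℝ := (Fintype.card κ : ℝ) with hn
      have hn0 : 0 ≤ n := Nat.cast_nonneg _
      have hmono : (b * N) ^ r ≤ (b * (N + 1)) ^ r := by
        apply pow_le_pow_left₀ (by positivity)
        nlinarith
      have h5 : Ex ρ (fun ω => (S ω ^ (2 * r)).trace) + Ex ρ (fun ω => (S' ω ^ (2 * r)).trace) ≤
          2 * (A * n * (b * (N + 1)) ^ r) := by
        have : A * n * (b * N) ^ r ≤ A * n * (b * (N + 1)) ^ r := by gcongr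
        linarith
      have h6 : (b * N) ^ (r + 1) + b * (b * (N + 1)) ^ r ≤ (b * (N + 1)) ^ (r + 1) := by
        have e1 : (b * N) ^ (r + 1) = (b * N) ^ r * (b * N) := pow_succ _ _
        have e2 : (b * (N + 1)) ^ (r + 1) = (b * (N + 1)) ^ r * (b * (N + 1)) := pow_succ _ _
        rw [e1, e2]
        have : (b * N) ^ r * (b * N) ≤ (b * (N + 1)) ^ r * (b * N) := by
          apply mul_le_mul_of_nonneg_right hmono (by positivity)
        nlinarith
      calc Ex ρ (fun ω => (S ω ^ (2 * (r + 1))).trace) ≤ _ := hmain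
        _ ≤ 8 * (r + 1) * (2 * r + 1) * A * n * (b * N) ^ (r + 1) +
            ((r + 1) * (2 * r + 1) * (4 * b)) * (2 * (A * n * (b * (N + 1)) ^ r)) := by
            apply add_le_add ihP
            apply mul_le_mul_of_nonneg_left h5 (by positivity)
        _ = 8 * (r + 1) * (2 * r + 1) * A * n * ((b * N) ^ (r + 1) + b * (b * (N + 1)) ^ r) := by
            ring
        _ ≤ 8 * (r + 1) * (2 * r + 1) * A * n * (b * (N + 1)) ^ (r + 1) := by
            apply mul_le_mul_of_nonneg_left h6 (by positivity)

end Pool.Agent.SB30
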