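import Pool.Agent.Lib.MP_a7b2aa_an.SB30.Stmts

/-!
One-variable modules: AL, F1, F2, E1, EXP (MP_a7b2aa_an).
-/

set_option autoImplicit false

open Finset

namespace Pool.Agent.SB30

variable {L : ℕ}

/-! ### bits -/

theorem bt_up {y : B L} {r s : ℕ} {v : Bool} (hr : r < L) :
    bt (up y r v) s = if s = r then v else bt y s := by
  unfold bt up
  by_cases hs : s < L
  · simp only [dif_pos hs]
  · simp only [dif_neg hs]
    rw [if_neg (by omega)]

theorem bt_up_self {y : B L} {r : ℕ} {v : Bool} (hr : r < L) : bt (up y r v) r = v := by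
  rw [bt_up hr, if_pos rfl]

theorem ext_bt {y y' : B L} (h : ∀ r < L, bt y r = bt y' r) : y = y' := by
  funext j
  have := h j.val j.isLt
  simpa [bt] using this

theorem up_bt {y : B L} {r : ℕ} (hr : r < L) : up y r (bt y r) = y := by
  refine ext_bt fun s _ => ?_
  rw [bt_up hr]
  split_ifs with h
  · rw [h]
  · rfl

theorem up_up {y : B L} {r : ℕ} {v v' : Bool} (hr : r < L) : up (up y r v) r v' = up y r v' := by
  refine ext_bt fun s _ => ?_
  rw [bt_up hr, bt_up hr, bt_up hr]
  split_ifs <;> rfl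

theorem Ag.refl (p : ℕ) (y : B L) : Ag p y y := fun _ _ => rfl

theorem Ag.symm {p : ℕ} {y y' : B L} (h : Ag p y y') : Ag p y' y := fun r hr => (h r hr).symm

theorem Ag.trans {p : ℕ} {y y' y'' : B L} (h : Ag p y y') (h' : Ag p y' y'') : Ag p y y'' :=
  fun r hr => (h r hr).trans (h' r hr)

theorem Ag.mono {p q : ℕ} {y y' : B L} (h : Ag q y y') (hpq : p ≤ q) : Ag p y y' :=
  fun r hr => h r (by omega)

theorem Ag.eq {y y' : B L} (h : Ag L y y') : y = y' := ext_bt h

theorem Meas.mono' {β : Type*} {p q : ℕ} {f : B L → β} (h : Meas (Ag p) f) (hpq : p ≤ q) :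
    Meas (Ag q) f := fun a b hab => h a b (hab.mono hpq)

theorem Ag_up {p : ℕ} {y y' : B L} {v : Bool} (hp : p < L) :
    Ag (p + 1) (up y p v) y' ↔ Ag p y y' ∧ v = bt y' p := by
  constructor
  · intro h
    refine ⟨fun r hr => ?_, ?_⟩
    · have := h r (by omega)
      rwa [bt_up hp, if_neg (by omega)] at this
    · have := h p (by omega)
      rwa [bt_up_self hp] at this
  · rintro ⟨h1, h2⟩ r hr
    rw [bt_up hp]
    split_ifs with h
    · rw [h2, h]
    · exact h1 r (by omega)

theorem Ag_up_up {p : ℕ} {y y' : B L} {v : Bool} (hp : p < L) (h : Ag p y y') :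
    Ag (p + 1) (up y p v) (up y' p v) := by
  intro r hr
  rw [bt_up hp, bt_up hp]
  split_ifs with h1
  · rfl
  · exact h r (by omega)

theorem meas_sg (p : ℕ) : Meas (Ag (p + 1)) (fun y : B L => sg y p) := by
  intro a b h
  simp only [sg, h p (Nat.lt_succ_self p)]

theorem sg_congr {p : ℕ} {a b : B L} (h : Ag (p + 1) a b) : sg a p = sg b p :=
  meas_sg p a b h

theorem abs_sg (y : B L) (p : ℕ) : |sg y p| = 1 := by
  unfold sg; split_ifs <;> simp

theorem sg_sq (y : B L) (p : ℕ) : sg y p ^ 2 = 1 := by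
  unfold sg; split_ifs <;> simp

/-- The two values of a bit. -/
theorem sum_up {r : ℕ} (hr : r < L) (W : B L → ℝ) :
    ∑ y, (W (up y r true) + W (up y r false)) = 2 * ∑ y, W y := by
  set fl : B L → B L := fun y => up y r (!bt y r) with hfl
  have hinv : Function.Involutive fl := by
    intro y
    simp only [hfl]
    rw [bt_up_self hr, up_up hr, Bool.not_not, up_bt hr]
  have h1 : ∑ y, W (fl y) = ∑ y, W y := Equiv.sum_comp (hinv.toPerm fl) W
  have h2 : ∀ y, W (up y r true) + W (up y r false) = W y + W (fl y) := by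
    intro y
    have h3 := up_bt (y := y) hr
    simp only [hfl]
    cases hb : bt y r with
    | false => rw [hb] at h3; rw [h3]; simp only [Bool.not_false]; ring
    | true => rw [hb] at h3; rw [h3]; simp only [Bool.not_true]
  rw [Finset.sum_congr rfl fun y _ => h2 y, Finset.sum_add_distrib, h1]
  ring

/-! ### class sums -/

theorem cs_congr {w : B L → ℝ} {p : ℕ} {y y' : B L} (h : Ag p y y') : cs w p y = cs w p y' := by
  unfold cs
  refine Finset.sum_congr rfl fun z _ => ?_
  have : Ag p y z ↔ Ag p y' z := ⟨fun h1 => h.symm.trans h1, fun h1 => h.trans h1⟩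
  simp only [this]

theorem cs_nonneg {w : B L → ℝ} (hw : ∀ y, 0 ≤ w y) (p : ℕ) (y : B L) : 0 ≤ cs w p y := by
  unfold cs
  refine Finset.sum_nonneg fun z _ => ?_
  split_ifs
  · exact hw z
  · exact le_rfl

theorem le_cs {w : B L → ℝ} (hw : ∀ y, 0 ≤ w y) (p : ℕ) (y : B L) : w y ≤ cs w p y := by
  unfold cs
  have h := Finset.single_le_sum (f := fun y' => if Ag p y y' then w y' else 0)
    (fun z _ => by split_ifs; exacts [hw z, le_rfl]) (Finset.mem_univ y)
  simpa [Ag.refl] using h

theorem cs_mul {w X : B L → ℝ} {p : ℕ} (hX : Meas (Ag p) X) (y : B L) :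
    cs (fun y' => w y' * X y') p y = cs w p y * X y := by
  unfold cs
  rw [Finset.sum_mul]
  refine Finset.sum_congr rfl fun z _ => ?_
  split_ifs with h
  · rw [hX y z h]
  · ring

theorem cs_split {w : B L → ℝ} {p : ℕ} (hp : p < L) (y : B L) :
    cs w p y = cs w (p + 1) (up y p true) + cs w (p + 1) (up y p false) := by
  unfold cs
  rw [← Finset.sum_add_distrib]
  refine Finset.sum_congr rfl fun z _ => ?_
  simp only [Ag_up hp]
  by_cases h : Ag p y z
  · cases hb : bt z p <;> simp [h]
  · simp [h]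

theorem cs_zero (w : B L → ℝ) (y : B L) : cs w 0 y = ∑ y', w y' := by
  unfold cs
  refine Finset.sum_congr rfl fun z _ => ?_
  exact if_pos (fun r hr => absurd hr (Nat.not_lt_zero r))

theorem cs_top (w : B L → ℝ) (y : B L) : cs w L y = w y := by
  unfold cs
  rw [Finset.sum_eq_single y]
  · rw [if_pos (Ag.refl L y)]
  · intro z _ hz
    rw [if_neg (fun h => hz h.eq.symm)]
  · intro h
    exact absurd (Finset.mem_univ y) h

theorem cs_mono {w w' : B L → ℝ} (h : ∀ y, w y ≤ w' y) (p : ℕ) (y : B L) :
    cs w p y ≤ cs w' p y := by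
  unfold cs
  refine Finset.sum_le_sum fun z _ => ?_
  split_ifs
  · exact h z
  · exact le_rfl

/-! ### AL -/

theorem abs_al_le {w : B L → ℝ} (hw : ∀ y, 0 ≤ w y) (p : ℕ) (y : B L) : |al w p y| ≤ 1 := by
  unfold al
  rw [abs_div, abs_of_nonneg (cs_nonneg hw p y)]
  refine div_le_one_of_le₀ ?_ (cs_nonneg hw p y)
  unfold cs
  refine (Finset.abs_sum_le_sum_abs _ _).trans (Finset.sum_le_sum fun z _ => ?_)
  split_ifs
  · rw [abs_mul, abs_sg, mul_one, abs_of_nonneg (hw z)]
  · simp

theorem meas_al (w : B L → ℝ) (p : ℕ) : Meas (Ag p) (al w p) := by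
  intro a b h
  unfold al
  rw [cs_congr h, cs_congr h]

/-- Conditional expectation of the sign. -/
theorem al_E {w : B L → ℝ} (hw : ∀ y, 0 ≤ w y) (p : ℕ) {X : B L → ℝ} (hX : Meas (Ag p) X) :
    ∑ y, w y * (sg y p * X y) = ∑ y, w y * (al w p y * X y) := by
  have h1 : ∀ y, w y * (al w p y * X y) =
      ∑ z, if Ag p y z then w y * w z * sg z p * X z / cs w p z else 0 := by
    intro y
    unfold al
    have h2 : cs (fun y' => w y' * sg y' p) p y = ∑ z, if Ag p y z then w z * sg z p else 0 := rfl
    rw [h2, div_mul_eq_mul_div, mul_div_assoc', Finset.sum_mul, Finset.mul_sum, Finset.sum_div]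
    refine Finset.sum_congr rfl fun z _ => ?_
    split_ifs with h
    · rw [hX y z h, cs_congr h]
      ring
    · simp
  rw [Finset.sum_congr rfl fun y _ => h1 y, Finset.sum_comm]
  refine Finset.sum_congr rfl fun z _ => ?_
  have h3 : ∑ y, (if Ag p y z then w y * w z * sg z p * X z / cs w p z else 0) =
      cs w p z * (w z * sg z p * X z / cs w p z) := by
    unfold cs
    rw [Finset.sum_mul]
    refine Finset.sum_congr rfl fun y _ => ?_
    have : Ag p y z ↔ Ag p z y := ⟨Ag.symm, Ag.symm⟩
    simp only [this]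
    split_ifs
    · ring
    · ring
  rw [h3]
  by_cases h4 : cs w p z = 0
  · have h5 : w z = 0 := le_antisymm (h4 ▸ le_cs hw p z) (hw z)
    rw [h5]; simp
  · rw [mul_div_cancel₀ _ h4]
    ring

theorem al3 : AlStmt := fun _ _ hw => ⟨fun p => meas_al _ p, fun p y => abs_al_le hw p y,
  fun p _ hX => al_E hw p hX⟩

/-! ### EXP -/

theorem exp3 : ExpStmt := by
  intro L Γ hΓ
  have key : ∀ n ≤ L, ∑ x : B L, ∏ i ∈ range n,
      (Real.exp (sg x i * Γ i x) / Real.cosh (Γ i x)) = 2 ^ L := by
    intro n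
    induction n with
    | zero =>
      intro _
      simp
    | succ n ih =>
      intro hn
      have hn' : n < L := hn
      rw [← ih (by omega)]
      have hm : Meas (Ag n) (fun x : B L => ∏ i ∈ range n,
          (Real.exp (sg x i * Γ i x) / Real.cosh (Γ i x))) := by
        intro a b hab
        refine Finset.prod_congr rfl fun i hi => ?_
        rw [Finset.mem_range] at hi
        rw [hΓ i a b (hab.mono (by omega)), sg_congr (hab.mono (by omega))]
      have h0 : ∀ (x : B L) (v : Bool), Ag n (up x n v) x := by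
        intro x v r hr
        rw [bt_up hn', if_neg (by omega)]
      have h1 := sum_up hn' (fun x : B L => ∏ i ∈ range (n + 1),
        (Real.exp (sg x i * Γ i x) / Real.cosh (Γ i x)))
      have h2 : ∀ x : B L, (∏ i ∈ range (n + 1),
          (Real.exp (sg (up x n true) i * Γ i (up x n true)) / Real.cosh (Γ i (up x n true)))) +
          (∏ i ∈ range (n + 1),
          (Real.exp (sg (up x n false) i * Γ i (up x n false)) /
            Real.cosh (Γ i (up x n false)))) =
          2 * ∏ i ∈ range n, (Real.exp (sg x i * Γ i x) / Real.cosh (Γ i x)) := by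
        intro x
        have c1 := hm _ _ (h0 x true)
        have c2 := hm _ _ (h0 x false)
        simp only at c1 c2
        rw [Finset.prod_range_succ, Finset.prod_range_succ, c1, c2, hΓ n _ _ (h0 x true),
          hΓ n _ _ (h0 x false)]
        have e1 : sg (up x n true) n = -1 := by
          unfold sg; rw [bt_up_self hn']; simp
        have e2 : sg (up x n false) n = 1 := by
          unfold sg; rw [bt_up_self hn']; simp
        rw [e1, e2, ← mul_add, ← add_div]
        have e3 : Real.exp (-1 * Γ n x) + Real.exp (1 * Γ n x) = 2 * Real.cosh (Γ n x) := by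
          rw [Real.cosh_eq]; simp only [neg_mul, one_mul]; ring
        rw [e3, mul_div_assoc, div_self (Real.cosh_pos _).ne']
        ring
      simp only [h2] at h1
      rw [← Finset.mul_sum] at h1
      linarith
  exact key L le_rfl

/-! ### F1 -/

theorem f1_3 : F1Stmt := by
  intro L w hw v U c hv hU hc
  have hU0 : ∀ q < L, 0 ≤ U q := fun q hq => (abs_nonneg _).trans (hU q hq (fun _ => false))
  set T : ℕ → B L → ℝ := fun n y => ∑ q ∈ range n, sg y q * v q y with hT
  have hTm : ∀ n, Meas (Ag n) (T n) := by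
    intro n a b hab
    refine Finset.sum_congr rfl fun q hq => ?_
    rw [Finset.mem_range] at hq
    rw [hv q a b (hab.mono (by omega)), sg_congr (hab.mono (by omega))]
  have hTb : ∀ n ≤ L, ∀ y, |T n y| ≤ c := by
    intro n hn y
    refine (Finset.abs_sum_le_sum_abs _ _).trans (le_trans ?_ hc)
    refine (Finset.sum_le_sum (g := U) fun q hq => ?_).trans ?_
    · rw [Finset.mem_range] at hq
      rw [abs_mul, abs_sg, one_mul]
      exact hU q (by omega) y
    · refine Finset.sum_le_sum_of_subset_of_nonneg ?_ ?_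
      · intro q hq
        rw [Finset.mem_range] at hq ⊢
        omega
      · intro q hq _
        exact hU0 q (Finset.mem_range.1 hq)
  have key : ∀ n ≤ L, ∑ y, w y * ∑ q ∈ range n, v q y ^ 2
        - 2 * c * ∑ y, w y * ∑ q ∈ range n, |al w q y| * U q
      ≤ ∑ y, w y * (T n y) ^ 2 := by
    intro n
    induction n with
    | zero => intro _; simp [hT]
    | succ n ih =>
      intro hn
      have h1 := ih (by omega)
      have h2 : ∑ y, w y * T (n + 1) y ^ 2 = ∑ y, w y * T n y ^ 2 +
          2 * ∑ y, w y * (sg y n * (v n y * T n y)) + ∑ y, w y * v n y ^ 2 := by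
        rw [Finset.mul_sum, ← Finset.sum_add_distrib, ← Finset.sum_add_distrib]
        refine Finset.sum_congr rfl fun y _ => ?_
        have : T (n + 1) y = T n y + sg y n * v n y := by
          simp only [hT]; rw [Finset.sum_range_succ]
        rw [this]
        have h3 := sg_sq y n
        have : (T n y + sg y n * v n y) ^ 2 = T n y ^ 2 + 2 * (sg y n * (v n y * T n y)) +
            sg y n ^ 2 * v n y ^ 2 := by ring
        rw [this, h3]; ring
      have h4 : ∑ y, w y * (sg y n * (v n y * T n y)) =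
          ∑ y, w y * (al w n y * (v n y * T n y)) :=
        al_E hw n (fun a b hab => by rw [hv n a b hab, hTm n a b hab])
      have h5 : -(c * ∑ y, w y * (|al w n y| * U n)) ≤
          ∑ y, w y * (al w n y * (v n y * T n y)) := by
        rw [Finset.mul_sum, ← Finset.sum_neg_distrib]
        refine Finset.sum_le_sum fun y _ => ?_
        have h6 : |al w n y * (v n y * T n y)| ≤ |al w n y| * (U n * c) := by
          rw [abs_mul, abs_mul]
          exact mul_le_mul_of_nonneg_left (mul_le_mul (hU n hn y) (hTb n (by omega) y)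
            (abs_nonneg _) (hU0 n hn)) (abs_nonneg _)
        have h7 := neg_le_of_abs_le h6
        have h8 := mul_le_mul_of_nonneg_left h7 (hw y)
        calc -(c * (w y * (|al w n y| * U n))) = w y * -(|al w n y| * (U n * c)) := by ring
          _ ≤ _ := h8
      have h9 : ∑ y, w y * ∑ q ∈ range (n + 1), v q y ^ 2 =
          ∑ y, w y * ∑ q ∈ range n, v q y ^ 2 + ∑ y, w y * v n y ^ 2 := by
        rw [← Finset.sum_add_distrib]
        refine Finset.sum_congr rfl fun y _ => ?_
        rw [Finset.sum_range_succ]; ring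
      have h10 : ∑ y, w y * ∑ q ∈ range (n + 1), |al w q y| * U q =
          ∑ y, w y * ∑ q ∈ range n, |al w q y| * U q + ∑ y, w y * (|al w n y| * U n) := by
        rw [← Finset.sum_add_distrib]
        refine Finset.sum_congr rfl fun y _ => ?_
        rw [Finset.sum_range_succ]; ring
      rw [h2, h4, h9, h10]
      linarith
  exact key L le_rfl

/-! ### F2 -/

theorem meas_av {p : ℕ} (hp : p < L) {W : B L → ℝ} (hW : Meas (Ag (p + 1)) W) :
    Meas (Ag p) (av p W) := by
  intro a b hab
  unfold av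
  rw [hW _ _ (Ag_up_up (v := true) hp hab), hW _ _ (Ag_up_up (v := false) hp hab)]

theorem abs_av_le {p : ℕ} {W : B L → ℝ} {D : ℝ} (hW : ∀ y, |W y| ≤ D) (y : B L) :
    |av p W y| ≤ D := by
  unfold av
  rw [smul_eq_mul, abs_mul]
  have h1 := abs_add_le (W (up y p true)) (W (up y p false))
  have h2 := hW (up y p true)
  have h3 := hW (up y p false)
  have h4 : |(1 / 2 : ℝ)| = 1 / 2 := abs_of_pos (by norm_num)
  rw [h4]
  linarith

theorem f2_3 : F2Stmt := by
  intro L w hw W D a n
  induction n generalizing W with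
  | zero => intro _ _ _; simp [avD]
  | succ n ih =>
    intro hn hW hD
    obtain ⟨p, hpdef⟩ : ∃ p, p = a + n := ⟨_, rfl⟩
    have hp : p < L := by omega
    rw [← Nat.add_assoc, ← hpdef] at hW
    set H : B L → ℝ := fun y => (W (up y p false) - W (up y p true)) / 2 with hH
    have hHm : Meas (Ag p) H := by
      intro x y hxy
      simp only [hH]
      rw [hW _ _ (Ag_up_up (v := true) hp hxy), hW _ _ (Ag_up_up (v := false) hp hxy)]
    have hHb : ∀ y, |H y| ≤ D := by
      intro y
      simp only [hH]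
      rw [abs_div, abs_of_pos (by norm_num : (0 : ℝ) < 2)]
      have h1 := abs_sub (W (up y p false)) (W (up y p true))
      have h2 := hD (up y p true)
      have h3 := hD (up y p false)
      linarith
    have h1 : ∀ y, W y - av p W y = sg y p * H y := by
      intro y
      have h3 := up_bt (y := y) hp
      simp only [hH, av, sg, smul_eq_mul]
      cases hb : bt y p with
      | false => rw [hb] at h3; rw [h3]; simp; ring
      | true => rw [hb] at h3; rw [h3]; simp; ring
    have h2 := ih (av p W) (by omega) (hpdef ▸ meas_av hp hW) (fun y => abs_av_le hD y)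
    have h4 : ∑ y, w y * (W y - avD a (n + 1) W y) =
        ∑ y, w y * (al w p y * H y) + ∑ y, w y * (av p W y - avD a n (av p W) y) := by
      rw [← al_E hw p hHm, ← Finset.sum_add_distrib]
      refine Finset.sum_congr rfl fun y _ => ?_
      rw [← h1 y]
      simp only [avD, ← hpdef]
      ring
    have h5 : |∑ y, w y * (al w p y * H y)| ≤ D * ∑ y, w y * |al w p y| := by
      rw [Finset.mul_sum]
      refine (Finset.abs_sum_le_sum_abs _ _).trans (Finset.sum_le_sum fun y _ => ?_)
      rw [abs_mul, abs_mul, abs_of_nonneg (hw y)]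
      have := mul_le_mul_of_nonneg_left (hHb y) (mul_nonneg (hw y) (abs_nonneg (al w p y)))
      linarith
    have h6 : ∑ y, w y * ∑ r ∈ Ico a (a + (n + 1)), |al w r y| =
        ∑ y, w y * ∑ r ∈ Ico a (a + n), |al w r y| + ∑ y, w y * |al w p y| := by
      rw [← Finset.sum_add_distrib]
      refine Finset.sum_congr rfl fun y _ => ?_
      rw [← Nat.add_assoc, Finset.sum_Ico_succ_top (by omega), ← hpdef]
      ring
    rw [h4, h6, mul_add]
    refine (abs_add_le _ _).trans ?_
    linarith

/-! ### E1 -/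

theorem al_split {w : B L → ℝ} (hw : ∀ y, 0 ≤ w y) {p : ℕ} (hp : p < L) (y : B L) :
    cs w p y * al w p y = cs w (p + 1) (up y p false) - cs w (p + 1) (up y p true) := by
  have h1 : cs (fun y' => w y' * sg y' p) p y =
      cs w (p + 1) (up y p false) - cs w (p + 1) (up y p true) := by
    rw [cs_split hp, cs_mul (meas_sg p), cs_mul (meas_sg p)]
    have e1 : sg (up y p true) p = -1 := by unfold sg; rw [bt_up_self hp]; simp
    have e2 : sg (up y p false) p = 1 := by unfold sg; rw [bt_up_self hp]; simp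
    rw [e1, e2]; ring
  unfold al
  rw [h1]
  by_cases h : cs w p y = 0
  · have h2 := cs_split (w := w) hp y
    have h3 := cs_nonneg hw (p + 1) (up y p false)
    have h4 := cs_nonneg hw (p + 1) (up y p true)
    rw [h] at h2 ⊢
    have h5 : cs w (p + 1) (up y p false) = 0 := by linarith
    have h6 : cs w (p + 1) (up y p true) = 0 := by linarith
    rw [h5, h6]; simp
  · rw [mul_div_cancel₀ _ h]

theorem sqrt_ineq {C C0 C1 a : ℝ} (h0 : 0 ≤ C0) (h1 : 0 ≤ C1) (hC : C = C1 + C0)
    (ha : C * a = C0 - C1) (ha1 : |a| ≤ 1) :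
    Real.exp (a ^ 2 / 8) * (Real.sqrt C1 + Real.sqrt C0) ≤ Real.sqrt 2 * Real.sqrt C := by
  have hC0 : 0 ≤ C := by rw [hC]; positivity
  rw [← Real.sqrt_mul (by norm_num)]
  apply Real.le_sqrt_of_sq_le
  have ha2 : a ^ 2 ≤ 1 := by
    have := abs_le.1 ha1
    nlinarith
  set s := Real.sqrt C1 * Real.sqrt C0 with hs
  have hs2 : s ^ 2 = C1 * C0 := by
    rw [hs, mul_pow, Real.sq_sqrt h1, Real.sq_sqrt h0]
  have h4 : (2 * s) ^ 2 ≤ (C * (1 - a ^ 2 / 2)) ^ 2 := by
    have e1 : 4 * (C1 * C0) = C ^ 2 * (1 - a ^ 2) := by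
      have : (C * a) ^ 2 = (C0 - C1) ^ 2 := by rw [ha]
      have e2 : C ^ 2 = (C1 + C0) ^ 2 := by rw [hC]
      nlinarith
    have e3 : (2 * s) ^ 2 = C ^ 2 * (1 - a ^ 2) := by rw [mul_pow, hs2]; linarith
    rw [e3]
    have e4 : (C * (1 - a ^ 2 / 2)) ^ 2 = C ^ 2 * (1 - a ^ 2) + (C * a ^ 2 / 2) ^ 2 := by ring
    rw [e4]
    have := sq_nonneg (C * a ^ 2 / 2)
    linarith
  have h5 : 2 * s ≤ C * (1 - a ^ 2 / 2) := by
    have h6 : 0 ≤ C * (1 - a ^ 2 / 2) := mul_nonneg hC0 (by linarith)
    exact (le_abs_self _).trans (abs_le_of_sq_le_sq h4 h6)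
  have h7 : (Real.sqrt C1 + Real.sqrt C0) ^ 2 ≤ 2 * C * (1 - a ^ 2 / 4) := by
    have : (Real.sqrt C1 + Real.sqrt C0) ^ 2 = C1 + 2 * s + C0 := by
      rw [add_sq, Real.sq_sqrt h1, Real.sq_sqrt h0, hs]; ring
    rw [this]
    nlinarith
  have h8 : Real.exp (a ^ 2 / 8) ^ 2 = Real.exp (a ^ 2 / 4) := by
    rw [← Real.exp_nat_mul]; congr 1; push_cast; ring
  rw [mul_pow, h8]
  have h9 : Real.exp (a ^ 2 / 4) * (1 - a ^ 2 / 4) ≤ 1 := by
    have h10 := Real.add_one_le_exp (-(a ^ 2 / 4))
    have h11 : Real.exp (a ^ 2 / 4) * Real.exp (-(a ^ 2 / 4)) = 1 := by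
      rw [← Real.exp_add]; simp
    have h12 := mul_le_mul_of_nonneg_left h10 (Real.exp_pos (a ^ 2 / 4)).le
    rw [h11] at h12
    calc Real.exp (a ^ 2 / 4) * (1 - a ^ 2 / 4) = Real.exp (a ^ 2 / 4) * (-(a ^ 2 / 4) + 1) := by
          ring
      _ ≤ 1 := h12
  calc Real.exp (a ^ 2 / 4) * (Real.sqrt C1 + Real.sqrt C0) ^ 2
      ≤ Real.exp (a ^ 2 / 4) * (2 * C * (1 - a ^ 2 / 4)) :=
        mul_le_mul_of_nonneg_left h7 (Real.exp_pos _).le
    _ = 2 * C * (Real.exp (a ^ 2 / 4) * (1 - a ^ 2 / 4)) := by ring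
    _ ≤ 2 * C * 1 := mul_le_mul_of_nonneg_left h9 (by positivity)
    _ = 2 * C := by ring

theorem e1_3 : E1Stmt := by
  intro L w hw hw1
  set W : ℕ → B L → ℝ := fun p y => w y * Real.exp ((∑ r ∈ Ico p L, al w r y ^ 2) / 8) with hW
  have key : ∀ n p, p + n = L → ∀ y, cs (W p) p y ≤ Real.sqrt (2 ^ n) * Real.sqrt (cs w p y) := by
    intro n
    induction n with
    | zero =>
      intro p hp y
      have hp' : p = L := by omega
      subst hp'
      rw [cs_top, cs_top]
      simp only [hW, Finset.Ico_self, Finset.sum_empty, zero_div, Real.exp_zero, mul_one,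
        pow_zero, Real.sqrt_one, one_mul]
      apply Real.le_sqrt_of_sq_le
      have h1 := hw y
      have h2 := hw1 y
      nlinarith
    | succ n ih =>
      intro p hpn y
      have hp : p < L := by omega
      have h1 : cs (W p) p y = cs (W (p + 1)) p y * Real.exp (al w p y ^ 2 / 8) := by
        rw [← cs_mul (w := W (p + 1)) (X := fun y => Real.exp (al w p y ^ 2 / 8))
          (fun a b h => by simp only [meas_al w p a b h])]
        congr 1
        funext z
        simp only [hW]
        rw [Finset.sum_eq_sum_Ico_succ_bot hp, mul_assoc, ← Real.exp_add]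
        congr 2
        ring
      rw [h1, cs_split hp]
      have h2 := ih (p + 1) (by omega) (up y p true)
      have h3 := ih (p + 1) (by omega) (up y p false)
      have h4 := sqrt_ineq (cs_nonneg hw (p + 1) (up y p false))
        (cs_nonneg hw (p + 1) (up y p true)) (cs_split hp y) (al_split hw hp y)
        (abs_al_le hw p y)
      have h5 : Real.sqrt (2 ^ (n + 1)) = Real.sqrt (2 ^ n) * Real.sqrt 2 := by
        rw [pow_succ, Real.sqrt_mul (by positivity)]
      rw [h5]
      calc (cs (W (p + 1)) (p + 1) (up y p true) + cs (W (p + 1)) (p + 1) (up y p false)) *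
            Real.exp (al w p y ^ 2 / 8)
          ≤ (Real.sqrt (2 ^ n) * Real.sqrt (cs w (p + 1) (up y p true)) +
            Real.sqrt (2 ^ n) * Real.sqrt (cs w (p + 1) (up y p false))) *
            Real.exp (al w p y ^ 2 / 8) :=
            mul_le_mul_of_nonneg_right (add_le_add h2 h3) (Real.exp_pos _).le
        _ = Real.sqrt (2 ^ n) * (Real.exp (al w p y ^ 2 / 8) *
            (Real.sqrt (cs w (p + 1) (up y p true)) +
              Real.sqrt (cs w (p + 1) (up y p false)))) := by ring
        _ ≤ Real.sqrt (2 ^ n) * (Real.sqrt 2 * Real.sqrt (cs w p y)) :=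
            mul_le_mul_of_nonneg_left h4 (Real.sqrt_nonneg _)
        _ = _ := by ring
  have h1 := key L 0 (by omega) (fun _ => false)
  rw [cs_zero, cs_zero] at h1
  simpa only [hW, Finset.range_eq_Ico] using h1

end Pool.Agent.SB30
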