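import Mathlib

/-!
Definitions and module statements for the flat one-frequency small ball theorem in dimension 3
(MP_a7b2aa_an).  Blueprint: a7_plan.md.
-/

set_option autoImplicit false

open Finset

namespace Pool.Agent.SB30

/-! ### abstract part -/

/-- `f` is constant on the classes of `s`. -/
def Meas {Ω β : Type*} (s : Ω → Ω → Prop) (f : Ω → β) : Prop := ∀ a b, s a b → f a = f b

/-- Expectation with respect to the weight `ρ`. -/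
def Ex {Ω : Type*} [Fintype Ω] (ρ f : Ω → ℝ) : ℝ := ∑ ω, ρ ω * f ω

/-- The abstract setting: two filtrations `R p` (rows) and `C q` (columns) given as relations,
signs `e p` (= η_p) and `z q` (= ζ_q), their conditional means `al p`, `be q`, and the vectors
`u i p q`. -/
structure Sys (Ω : Type) [Fintype Ω] (L : ℕ) (I : Finset ℕ) (c k : ℝ) where
  ρ : Ω → ℝ
  R : ℕ → Ω → Ω → Prop
  C : ℕ → Ω → Ω → Prop
  e : ℕ → Ω → ℝ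
  z : ℕ → Ω → ℝ
  al : ℕ → Ω → ℝ
  be : ℕ → Ω → ℝ
  u : ℕ → ℕ → ℕ → Ω → ℝ
  ρ_nonneg : ∀ ω, 0 ≤ ρ ω
  ρ_sum : ∑ ω, ρ ω = 1
  R_mono : ∀ p a b, R (p + 1) a b → R p a b
  C_mono : ∀ q a b, C (q + 1) a b → C q a b
  e_sq : ∀ p ω, e p ω ^ 2 = 1
  z_sq : ∀ q ω, z q ω ^ 2 = 1
  e_R : ∀ p, Meas (R (p + 1)) (e p)
  z_C : ∀ q, Meas (C (q + 1)) (z q)
  e_C : ∀ p q, Meas (C q) (e p)
  z_R : ∀ p q, Meas (R p) (z q)
  u_R : ∀ i p q, Meas (R p) (u i p q)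
  u_C : ∀ i p q, Meas (C q) (u i p q)
  al_R : ∀ p, Meas (R p) (al p)
  be_C : ∀ q, Meas (C q) (be q)
  al_le : ∀ p ω, |al p ω| ≤ 1
  be_le : ∀ q ω, |be q ω| ≤ 1
  al_E : ∀ p < L, ∀ X : Ω → ℝ, Meas (R p) X →
    Ex ρ (fun ω => e p ω * X ω) = Ex ρ (fun ω => al p ω * X ω)
  be_E : ∀ q < L, ∀ X : Ω → ℝ, Meas (C q) X →
    Ex ρ (fun ω => z q ω * X ω) = Ex ρ (fun ω => be q ω * X ω)
  c_nonneg : 0 ≤ c
  k_ge : 1 ≤ k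
  schur_i : ∀ p < L, ∀ q < L, ∀ ω, ∑ i ∈ I, |u i p q ω| ≤ c
  schur_p : ∀ i ∈ I, ∀ q < L, ∀ ω, ∑ p ∈ range L, |u i p q ω| ≤ c
  schur_q : ∀ i ∈ I, ∀ p < L, ∀ ω, ∑ q ∈ range L, |u i p q ω| ≤ c
  loc_gt : ∀ p' < L, ∀ q' < L, ∀ ω, ∑ p ∈ Ioo p' L, ∑ q ∈ Ioo q' L,
    |∑ i ∈ I, u i p q ω * u i p' q' ω| ≤ c ^ 2
  loc_le : ∀ p' < L, ∀ q' < L, ∀ ω, ∑ p ∈ range (p' + 1), ∑ q ∈ range (q' + 1),
    |∑ i ∈ I, u i p q ω * u i p' q' ω| ≤ c ^ 2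
  al_k : Ex ρ (fun ω => (∑ p ∈ range L, al p ω ^ 2) ^ 2) ≤ k ^ 2
  be_k : Ex ρ (fun ω => (∑ q ∈ range L, be q ω ^ 2) ^ 2) ≤ k ^ 2

namespace Sys

variable {Ω : Type} [Fintype Ω] {L : ℕ} {I : Finset ℕ} {c k : ℝ} (S : Sys Ω L I c k)

/-- `|G|²`, `G_i = ∑_{p,q} η_p ζ_q u_{ipq}`. -/
def G2 (ω : Ω) : ℝ :=
  ∑ i ∈ I, (∑ p ∈ range L, ∑ q ∈ range L, S.e p ω * S.z q ω * S.u i p q ω) ^ 2

/-- `Θ = ∑_p |V_p|²`, `V_p = ∑_q ζ_q u_{ipq}`. -/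
def Th (ω : Ω) : ℝ :=
  ∑ i ∈ I, ∑ p ∈ range L, (∑ q ∈ range L, S.z q ω * S.u i p q ω) ^ 2

end Sys

/-- Module OPB (operator bound): for every `t ≥ 1` there is a constant `A` such that for all
systems and all (not necessarily measurable) random vectors `v`, with `A (#I + L) ≤ K^(2t)`,
`E |∑_{p ∈ P} (η_p - α_p) A_p v|² ≤ K #P c² (E |v|⁴)^(1/2)`. -/
def OpBStmt : Prop := ∀ t : ℕ, 1 ≤ t → ∃ A : ℝ, 0 < A ∧
  ∀ (Ω : Type) [Fintype Ω] (L : ℕ) (I : Finset ℕ) (c k : ℝ) (S : Sys Ω L I c k) (K : ℝ),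
    0 ≤ K → A * ((I.card : ℝ) + L) ≤ K ^ (2 * t) →
    ∀ P : Finset ℕ, P ⊆ range L → ∀ v : ℕ → Ω → ℝ,
      Ex S.ρ (fun ω => ∑ i ∈ I, (∑ p ∈ P, ∑ q ∈ range L,
          (S.e p ω - S.al p ω) * v q ω * S.u i p q ω) ^ 2)
        ≤ K * P.card * c ^ 2 * Real.sqrt (Ex S.ρ (fun ω => (∑ q ∈ range L, v q ω ^ 2) ^ 2))

/-- Module MOM (matrix moments). -/
def MomStmt : Prop := ∀ r : ℕ, ∃ A : ℝ, 0 < A ∧
  ∀ (Ω : Type) [Fintype Ω] (κ : Type) [Fintype κ] [DecidableEq κ] (ρ : Ω → ℝ)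
    (R : ℕ → Ω → Ω → Prop) (D : ℕ → Ω → ℝ) (M : ℕ → Ω → Matrix κ κ ℝ) (b : ℝ) (L : ℕ),
    (∀ ω, 0 ≤ ρ ω) → (∑ ω, ρ ω = 1) → (∀ p x y, R (p + 1) x y → R p x y) →
    (∀ p, Meas (R (p + 1)) (D p)) → (∀ p ω, |D p ω| ≤ 2) → (∀ p, Meas (R p) (M p)) →
    (∀ p < L, ∀ X : Ω → ℝ, Meas (R p) X → Ex ρ (fun ω => D p ω * X ω) = 0) →
    (∀ p ω, (M p ω).IsSymm) → 0 ≤ b →
    (∀ p < L, ∀ ω, ∀ w : κ → ℝ, ∑ i, ((M p ω).mulVec w i) ^ 2 ≤ b * ∑ i, w i ^ 2) →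
    ∀ P : Finset ℕ, P ⊆ range L →
      Ex ρ (fun ω => ((∑ p ∈ P, D p ω • M p ω) ^ (2 * r)).trace)
        ≤ A * Fintype.card κ * (b * P.card) ^ r

/-- Module LK (the trace inequality). -/
def LKStmt : Prop := ∀ (κ : Type) [Fintype κ] [DecidableEq κ] (A B : Matrix κ κ ℝ) (r : ℕ)
  (b : ℝ), A.IsSymm → B.IsSymm →
    (∀ w : κ → ℝ, ∑ i, (B.mulVec w i) ^ 2 ≤ b * ∑ i, w i ^ 2) →
    ((A + B) ^ (2 * (r + 1))).trace ≤ (A ^ (2 * (r + 1))).trace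
      + 2 * (r + 1) * (A ^ (2 * r + 1) * B).trace
      + (r + 1) * (2 * r + 1) * b * (((A + B) ^ (2 * r)).trace + (A ^ (2 * r)).trace)

/-- Module TV (trace and vector): `|S w|^(2r) ≤ tr S^(2r) |w|^(2r)`. -/
def TVStmt : Prop := ∀ (κ : Type) [Fintype κ] [DecidableEq κ] (S : Matrix κ κ ℝ) (r : ℕ),
  S.IsSymm → 1 ≤ r → ∃ lam : ℝ, 0 ≤ lam ∧ lam ^ r ≤ (S ^ (2 * r)).trace ∧
    ∀ w : κ → ℝ, ∑ i, (S.mulVec w i) ^ 2 ≤ lam * ∑ i, w i ^ 2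

/-- Module THA (Theorem A) with exponent `γ` (`γ = 1/2` first, then `γ = 2/3`). -/
def ThAStmt (γ : ℝ) : Prop := ∀ ε c : ℝ, 0 < ε → 0 ≤ c → ∃ L0 : ℕ, ∀ L ≥ L0,
  ∀ (Ω : Type) [Fintype Ω] (I : Finset ℕ) (k : ℝ) (S : Sys Ω L I c k), I ⊆ range L →
    k ≤ (L : ℝ) ^ (γ - ε) →
    Ex S.ρ S.Th - ε * (L : ℝ) ^ 2 ≤ Ex S.ρ S.G2

/-! ### bits -/

/-- Vectors of `L` bits. -/
abbrev B (L : ℕ) := Fin L → Bool

/-- The `r`-th bit. -/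
def bt {L : ℕ} (y : B L) (r : ℕ) : Bool := if h : r < L then y ⟨r, h⟩ else false

/-- The sign of the `r`-th bit. -/
def sg {L : ℕ} (y : B L) (r : ℕ) : ℝ := if bt y r then -1 else 1

/-- Set the `r`-th bit to `v`. -/
def up {L : ℕ} (y : B L) (r : ℕ) (v : Bool) : B L := fun j => if j.val = r then v else y j

/-- Agreement of the first `p` bits. -/
def Ag {L : ℕ} (p : ℕ) (y y' : B L) : Prop := ∀ r < p, bt y r = bt y' r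

instance {L : ℕ} (p : ℕ) (y y' : B L) : Decidable (Ag p y y') :=
  inferInstanceAs (Decidable (∀ r < p, bt y r = bt y' r))

/-- The sum of `w` over the class of `y`. -/
def cs {L : ℕ} (w : B L → ℝ) (p : ℕ) (y : B L) : ℝ := ∑ y' : B L, if Ag p y y' then w y' else 0

/-- The conditional mean of the sign of bit `p` given the first `p` bits, for the weight `w`. -/
noncomputable def al {L : ℕ} (w : B L → ℝ) (p : ℕ) (y : B L) : ℝ :=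
  cs (fun y' => w y' * sg y' p) p y / cs w p y

/-- Averages over the bit `r`. -/
noncomputable def av {L : ℕ} {E : Type*} [AddCommGroup E] [Module ℝ E] (r : ℕ) (W : B L → E) :
    B L → E := fun y => (1 / 2 : ℝ) • (W (up y r true) + W (up y r false))

/-- Average over the bits `a, ..., a + n - 1` (the top one first). -/
noncomputable def avD {L : ℕ} {E : Type*} [AddCommGroup E] [Module ℝ E] (a : ℕ) :
    ℕ → (B L → E) → (B L → E)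
  | 0, W => W
  | n + 1, W => avD a n (av (a + n) W)

/-- Module ALB (basic facts on `al`). -/
def AlStmt : Prop := ∀ (L : ℕ) (w : B L → ℝ), (∀ y, 0 ≤ w y) →
  (∀ p, Meas (Ag p) (al w p)) ∧ (∀ p y, |al w p y| ≤ 1) ∧
  (∀ p, ∀ X : B L → ℝ, Meas (Ag p) X →
    ∑ y, w y * (sg y p * X y) = ∑ y, w y * (al w p y * X y))

/-- Module E1 (entropy). -/
def E1Stmt : Prop := ∀ (L : ℕ) (w : B L → ℝ), (∀ y, 0 ≤ w y) → (∀ y, w y ≤ 1) →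
  ∑ y, w y * Real.exp ((∑ p ∈ range L, al w p y ^ 2) / 8)
    ≤ Real.sqrt (2 ^ L) * Real.sqrt (∑ y, w y)

/-- Module EXP (exponential martingale). -/
def ExpStmt : Prop := ∀ (L : ℕ) (Γ : ℕ → B L → ℝ), (∀ i, Meas (Ag i) (Γ i)) →
  ∑ x : B L, ∏ i ∈ range L, (Real.exp (sg x i * Γ i x) / Real.cosh (Γ i x)) = 2 ^ L

/-- Module F1 (one variable). -/
def F1Stmt : Prop := ∀ (L : ℕ) (w : B L → ℝ), (∀ y, 0 ≤ w y) →
  ∀ (v : ℕ → B L → ℝ) (U : ℕ → ℝ) (c : ℝ), (∀ q, Meas (Ag q) (v q)) →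
    (∀ q < L, ∀ y, |v q y| ≤ U q) → ∑ q ∈ range L, U q ≤ c →
    ∑ y, w y * ∑ q ∈ range L, v q y ^ 2
        - 2 * c * ∑ y, w y * ∑ q ∈ range L, |al w q y| * U q
      ≤ ∑ y, w y * (∑ q ∈ range L, sg y q * v q y) ^ 2

/-- Module F2 (one variable). -/
def F2Stmt : Prop := ∀ (L : ℕ) (w : B L → ℝ), (∀ y, 0 ≤ w y) →
  ∀ (W : B L → ℝ) (D : ℝ) (a n : ℕ), a + n ≤ L → Meas (Ag (a + n)) W → (∀ y, |W y| ≤ D) →
    |∑ y, w y * (W y - avD a n W y)| ≤ D * ∑ y, w y * ∑ p ∈ Ico a (a + n), |al w p y|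

/-! ### Haar coefficients of exponentials -/

/-- `exp (2 π i k / 2^(r+1))`. -/
noncomputable def om (k : ℤ) (r : ℕ) : ℂ :=
  Complex.exp (2 * Real.pi * Complex.I * k / 2 ^ (r + 1))

/-- The factor of the bit `r` in `exp (i k x)`. -/
noncomputable def zz {L : ℕ} (k : ℤ) (r : ℕ) (y : B L) : ℂ := if bt y r then om k r else 1

/-- The coefficient of `sg y i` in `exp (i k x)`. -/
noncomputable def hc {L : ℕ} (k : ℤ) (i : ℕ) (y : B L) : ℂ :=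
  (∏ r ∈ range i, zz k r y) * ((1 - om k i) / 2) * ∏ r ∈ Ico (i + 1) L, ((1 + om k r) / 2)

/-- The grid point. -/
noncomputable def gp {L : ℕ} (y : B L) : ℝ :=
  ∑ r ∈ range L, if bt y r then 2 * Real.pi / 2 ^ (r + 1) else 0

/-- `k` has size `2^s`: `2^(s-1) ≤ |k| < 2^s`. -/
def Sz (k : ℤ) (s : ℕ) : Prop := 1 ≤ s ∧ (2 : ℤ) ^ (s - 1) ≤ |k| ∧ |k| < (2 : ℤ) ^ s

/-- Distance of `s` and `t`. -/
def dd (s t : ℕ) : ℕ := (s - t) + (t - s)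

/-- Distance of `s` to the multiples of `M`. -/
def dm (M s : ℕ) : ℕ := min (s % M) (M - s % M)

/-- Module HC. -/
def HcStmt : Prop := ∀ (L : ℕ) (k : ℤ) (s : ℕ), Sz k s → s < L →
  (∀ y : B L, Complex.exp (Complex.I * (k * gp y : ℝ)) = ∑ i ∈ range L, (sg y i : ℂ) * hc k i y) ∧
  (∀ i, Meas (Ag i) (fun y : B L => hc k i y)) ∧
  (∀ i (y : B L), (starRingEnd ℂ) (hc k i y) = hc (-k) i y) ∧
  (∀ i < L, ∀ y : B L, ‖hc k i y‖ ≤ 2 * (1 / 2 : ℝ) ^ dd i s)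

/-- The group average of `hc k p * hc k' p`, summed over `p`. -/
noncomputable def Yc {L : ℕ} (M : ℕ) (k k' : ℤ) (y : B L) : ℂ :=
  ∑ p ∈ range L, avD (p - p % M) (p % M) (fun y : B L => hc k p y * hc k' p y) y

/-- The sum of `hc k i * hc k' i`. -/
noncomputable def Xc {L : ℕ} (k k' : ℤ) (y : B L) : ℂ := ∑ i ∈ range L, hc k i y * hc k' i y

/-- Module COV. -/
def CovStmt : Prop := ∃ A : ℝ, 0 < A ∧ ∀ (M N : ℕ), 1 ≤ M →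
  ∀ (k k' : ℤ) (s s' : ℕ), Sz k s → Sz k' s' → s + 2 ≤ M * N → s' + 2 ≤ M * N →
  ∀ y : B (M * N),
    ‖Xc k k' y‖ ≤ A * (9 / 10 : ℝ) ^ dd s s' ∧
    ‖Yc M k k' y‖ ≤ A * (9 / 10 : ℝ) ^ dd s s' ∧
    (2 ≤ dd s s' ∨ k' = k →
      ‖Yc M k k' y‖ ≤ A * (9 / 10 : ℝ) ^ (dd s s' + dm M (max s s'))) ∧
    (k' = -k → Xc k k' y = 1 ∧ Yc M k k' y = 1)

/-! ### the three dimensional functions -/

/-- The layer of `l : Fin 3 → ℕ` with positive entries and sum `m`. -/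
def lay (m : ℕ) : Finset (Fin 3 → ℕ) :=
  (Finset.Nat.antidiagonalTuple 3 m).filter (fun l => ∀ j, 1 ≤ l j)

/-- The frequencies. -/
def Freq (m : ℕ) (k : (Fin 3 → ℕ) → Fin 3 → ℤ) : Prop :=
  ∀ l ∈ lay m, ∀ j, Sz (k l j) (2 * l j)

/-- `f_{ipq}`. -/
noncomputable def ff {L : ℕ} (m : ℕ) (k : (Fin 3 → ℕ) → Fin 3 → ℤ) (a : (Fin 3 → ℕ) → ℂ)
    (i p q : ℕ) (x y z : B L) : ℝ :=
  (∑ l ∈ lay m, a l * hc (k l 0) i x * hc (k l 1) p y * hc (k l 2) q z).re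

/-- The majorant of `|f_{ipq}|`. -/
noncomputable def UU (m i p q : ℕ) : ℝ :=
  8 * ∑ l ∈ lay m, (1 / 2 : ℝ) ^ (dd i (2 * l 0) + dd p (2 * l 1) + dd q (2 * l 2))

/-- Module KER (numerical bounds of `UU`). -/
def KerStmt : Prop := ∃ A : ℝ, 0 < A ∧ ∀ m L : ℕ,
  (∀ p q, ∑ i ∈ range L, UU m i p q ≤ A) ∧ (∀ i q, ∑ p ∈ range L, UU m i p q ≤ A) ∧
  (∀ i p, ∑ q ∈ range L, UU m i p q ≤ A) ∧
  (∀ p' q', ∑ p ∈ Ioo p' L, ∑ q ∈ Ioo q' L, ∑ i ∈ range L, UU m i p q * UU m i p' q' ≤ A ^ 2) ∧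
  (∀ p' q', ∑ p ∈ range (p' + 1), ∑ q ∈ range (q' + 1), ∑ i ∈ range L,
    UU m i p q * UU m i p' q' ≤ A ^ 2)

/-- Module F3. -/
def F3Stmt : Prop := ∃ A : ℝ, 0 < A ∧ ∀ (M N m : ℕ), 1 ≤ M → 2 * m + 2 ≤ M * N →
  ∀ (k : (Fin 3 → ℕ) → Fin 3 → ℤ) (a : (Fin 3 → ℕ) → ℂ), Freq m k →
    (∀ l ∈ lay m, ‖a l‖ ≤ 1) → ∀ x y z : B (M * N),
    (1 / 2) * ∑ l ∈ lay m, ‖a l‖ ^ 2 - A * ((m : ℝ) ^ 2 / M + m) ≤
      ∑ i ∈ range (M * N), ∑ p ∈ range (M * N), ∑ q ∈ range (M * N),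
        avD (q - q % M) (q % M) (fun z' : B (M * N) =>
          avD (p - p % M) (p % M) (fun y' : B (M * N) => ff m k a i p q x y' z' ^ 2) y) z

/-- The final statement on the grid, with exponent `1 + γ / 2 - ε`. -/
def GridStmt (γ : ℝ) : Prop := ∀ ε δ : ℝ, 0 < ε → 0 < δ → ∃ m0 : ℕ, ∀ m ≥ m0,
  ∀ (k : (Fin 3 → ℕ) → Fin 3 → ℤ) (a : (Fin 3 → ℕ) → ℂ), Freq m k →
    (∀ l ∈ lay m, ‖a l‖ ≤ 1) → δ * (m : ℝ) ^ 2 ≤ ∑ l ∈ lay m, ‖a l‖ →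
    ∃ x : Fin 3 → ℝ, (m : ℝ) ^ (1 + γ / 2 - ε) ≤
      ‖∑ l ∈ lay m, a l * Complex.exp (Complex.I * ∑ j : Fin 3, ((k l j : ℝ) * x j : ℝ))‖

end Pool.Agent.SB30
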