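import Pool.Agent.Lib.MP_a7b2aa_an.SB30.Stmts

set_option autoImplicit false

/-!
Module TV (helper18).
-/

open Finset

namespace Pool.Agent.SB30.TV18

variable {κ : Type} [Fintype κ] [DecidableEq κ]

/-- `|S^j w|²`. -/
def aa (S : Matrix κ κ ℝ) (w : κ → ℝ) (j : ℕ) : ℝ := ∑ i, ((S ^ j).mulVec w i) ^ 2

theorem aa_nonneg (S : Matrix κ κ ℝ) (w : κ → ℝ) (j : ℕ) : 0 ≤ aa S w j :=
  sum_nonneg fun _ _ => sq_nonneg _

theorem aa_zero (S : Matrix κ κ ℝ) (w : κ → ℝ) : aa S w 0 = ∑ i, w i ^ 2 := by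
  simp [aa]

theorem aa_one (S : Matrix κ κ ℝ) (w : κ → ℝ) : aa S w 1 = ∑ i, (S.mulVec w i) ^ 2 := by
  simp [aa]

theorem isSymm_pow {S : Matrix κ κ ℝ} (hS : S.IsSymm) (j : ℕ) : (S ^ j).IsSymm := by
  rw [Matrix.IsSymm, Matrix.transpose_pow, hS]

/-- Log-convexity. -/
theorem aa_convex {S : Matrix κ κ ℝ} (hS : S.IsSymm) (w : κ → ℝ) (j : ℕ) :
    aa S w (j + 1) ^ 2 ≤ aa S w j * aa S w (j + 2) := by
  have h1 : aa S w (j + 1) = ∑ i, (S ^ j).mulVec w i * (S ^ (j + 2)).mulVec w i := by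
    have e1 : (S ^ (j + 1)).mulVec w = S.mulVec ((S ^ j).mulVec w) := by
      rw [Matrix.mulVec_mulVec, pow_succ']
    have e2 : (S ^ (j + 2)).mulVec w = S.mulVec ((S ^ (j + 1)).mulVec w) := by
      rw [Matrix.mulVec_mulVec, ← pow_succ']
    have e3 : ∀ x y : κ → ℝ, S.mulVec x ⬝ᵥ y = x ⬝ᵥ S.mulVec y := by
      intro x y
      rw [Matrix.dotProduct_mulVec, ← Matrix.mulVec_transpose, hS]
    have e4 : aa S w (j + 1) = (S ^ (j + 1)).mulVec w ⬝ᵥ (S ^ (j + 1)).mulVec w := by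
      simp only [aa, dotProduct, sq]
    rw [e4]
    calc (S ^ (j + 1)).mulVec w ⬝ᵥ (S ^ (j + 1)).mulVec w
        = S.mulVec ((S ^ j).mulVec w) ⬝ᵥ (S ^ (j + 1)).mulVec w := by rw [← e1]
      _ = (S ^ j).mulVec w ⬝ᵥ (S ^ (j + 2)).mulVec w := by rw [e3, ← e2]
      _ = _ := rfl
  rw [h1]
  exact sum_mul_sq_le_sq_mul_sq _ _ _

theorem aa_step {S : Matrix κ κ ℝ} (hS : S.IsSymm) (w : κ → ℝ) (j : ℕ) :
    aa S w 1 * aa S w j ≤ aa S w 0 * aa S w (j + 1) := by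
  induction j with
  | zero => rw [mul_comm]
  | succ j ih =>
    have h := aa_convex hS w j
    rcases (aa_nonneg S w j).eq_or_lt with h0 | h0
    · rw [← h0, zero_mul] at h
      have h1 : aa S w (j + 1) = 0 := by nlinarith [sq_nonneg (aa S w (j + 1))]
      rw [h1, mul_zero]
      exact mul_nonneg (aa_nonneg _ _ _) (aa_nonneg _ _ _)
    · have h1 : (aa S w 1 * aa S w (j + 1)) * aa S w j ≤
          (aa S w 0 * aa S w (j + 2)) * aa S w j := by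
        calc (aa S w 1 * aa S w (j + 1)) * aa S w j
            = (aa S w 1 * aa S w j) * aa S w (j + 1) := by ring
          _ ≤ (aa S w 0 * aa S w (j + 1)) * aa S w (j + 1) :=
              mul_le_mul_of_nonneg_right ih (aa_nonneg _ _ _)
          _ = aa S w 0 * aa S w (j + 1) ^ 2 := by ring
          _ ≤ aa S w 0 * (aa S w j * aa S w (j + 2)) :=
              mul_le_mul_of_nonneg_left h (aa_nonneg _ _ _)
          _ = _ := by ring
      exact le_of_mul_le_mul_right h1 h0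

theorem aa_pow {S : Matrix κ κ ℝ} (hS : S.IsSymm) (w : κ → ℝ) (r : ℕ) :
    aa S w 1 ^ (r + 1) ≤ aa S w 0 ^ r * aa S w (r + 1) := by
  induction r with
  | zero => simp
  | succ r ih =>
    calc aa S w 1 ^ (r + 1 + 1) = aa S w 1 ^ (r + 1) * aa S w 1 := by ring
      _ ≤ (aa S w 0 ^ r * aa S w (r + 1)) * aa S w 1 :=
          mul_le_mul_of_nonneg_right ih (aa_nonneg _ _ _)
      _ = aa S w 0 ^ r * (aa S w 1 * aa S w (r + 1)) := by ring
      _ ≤ aa S w 0 ^ r * (aa S w 0 * aa S w (r + 1 + 1)) :=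
          mul_le_mul_of_nonneg_left (aa_step hS w (r + 1)) (pow_nonneg (aa_nonneg _ _ _) _)
      _ = _ := by ring

theorem trace_eq {S : Matrix κ κ ℝ} (hS : S.IsSymm) (r : ℕ) :
    (S ^ (2 * r)).trace = ∑ i, ∑ j, (S ^ r) i j ^ 2 := by
  rw [two_mul, pow_add, Matrix.trace]
  refine sum_congr rfl fun i _ => ?_
  rw [Matrix.diag_apply, Matrix.mul_apply]
  refine sum_congr rfl fun j _ => ?_
  rw [sq]
  congr 1
  exact congrFun (congrFun (isSymm_pow hS r) i) j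

theorem aa_le_trace {S : Matrix κ κ ℝ} (hS : S.IsSymm) (w : κ → ℝ) (r : ℕ) :
    aa S w r ≤ (S ^ (2 * r)).trace * aa S w 0 := by
  rw [trace_eq hS, aa_zero, sum_mul]
  refine sum_le_sum fun i _ => ?_
  exact sum_mul_sq_le_sq_mul_sq _ _ _

theorem tv18 : TVStmt := by
  intro κ _ _ S r hS hr
  obtain ⟨r, rfl⟩ : ∃ r', r = r' + 1 := ⟨r - 1, by omega⟩
  have htr : 0 ≤ (S ^ (2 * (r + 1))).trace := by
    rw [trace_eq hS]
    exact sum_nonneg fun _ _ => sum_nonneg fun _ _ => sq_nonneg _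
  have hlam : ((S ^ (2 * (r + 1))).trace ^ (((r + 1 : ℕ) : ℝ)⁻¹)) ^ (r + 1) =
      (S ^ (2 * (r + 1))).trace := Real.rpow_inv_natCast_pow htr (Nat.succ_ne_zero r)
  refine ⟨(S ^ (2 * (r + 1))).trace ^ (((r + 1 : ℕ) : ℝ)⁻¹), Real.rpow_nonneg htr _,
    hlam.le, fun w => ?_⟩
  rw [← aa_one, ← aa_zero S w]
  refine le_of_pow_le_pow_left₀ (n := r + 1) (Nat.succ_ne_zero r)
    (mul_nonneg (Real.rpow_nonneg htr _) (aa_nonneg _ _ _)) ?_
  rw [mul_pow, hlam]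
  calc aa S w 1 ^ (r + 1) ≤ aa S w 0 ^ r * aa S w (r + 1) := aa_pow hS w r
    _ ≤ aa S w 0 ^ r * ((S ^ (2 * (r + 1))).trace * aa S w 0) :=
        mul_le_mul_of_nonneg_left (aa_le_trace hS w (r + 1)) (pow_nonneg (aa_nonneg _ _ _) _)
    _ = _ := by rw [pow_succ (aa S w 0)]; ring

end Pool.Agent.SB30.TV18

namespace Pool.Agent.SB30

theorem tv18 : TVStmt := TV18.tv18

end Pool.Agent.SB30
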